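import Pool.Agent.MP_dd175f_co.Defs

/-! Calculus facts on the two rates. -/

set_option autoImplicit false

namespace Pool.Agent.MP_dd175f_co

open Finset Real Filter Topology

@[fun_prop] lemma cont_logcosh {X : Type*} [TopologicalSpace X] {f : X → ℝ} (hf : Continuous f) :
    Continuous fun x => log (cosh (f x)) :=
  (continuous_cosh.comp hf).log fun _ => (cosh_pos _).ne'

@[fun_prop] lemma cont_tanh {X : Type*} [TopologicalSpace X] {f : X → ℝ} (hf : Continuous f) :
    Continuous fun x => tanh (f x) := by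
  simp only [tanh_eq_sinh_div_cosh]
  exact (continuous_sinh.comp hf).div (continuous_cosh.comp hf) fun _ => (cosh_pos _).ne'

lemma fenchel {p : ℝ} (h0 : 0 < p) (h1 : p < 1) (y : ℝ) :
    y * (1 - 2 * p) - rateD p ≤ log (cosh y) := by
  have hc := cosh_pos y
  have h2 : 0 < 1 - p := sub_pos.2 h1
  have a1 := log_le_sub_one_of_pos (show 0 < exp (-y) / (2 * p * cosh y) by positivity)
  have a2 := log_le_sub_one_of_pos (show 0 < exp y / (2 * (1 - p) * cosh y) by positivity)
  rw [log_div (by positivity) (by positivity), log_exp, log_mul (by positivity) hc.ne',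
    log_mul two_ne_zero (by positivity)] at a1 a2
  have a3 : p * (exp (-y) / (2 * p * cosh y) - 1) +
      (1 - p) * (exp y / (2 * (1 - p) * cosh y) - 1) = 0 := by
    have : exp (-y) = 2 * cosh y - exp y := by rw [cosh_eq]; ring
    rw [this]
    field_simp
    ring
  have b1 := mul_le_mul_of_nonneg_left a1 h0.le
  have b2 := mul_le_mul_of_nonneg_left a2 h2.le
  unfold rateD
  linarith

lemma integral_lin (a b : ℝ) : ∫ t in (0 : ℝ)..1, (a * t - b) = a / 2 - b := by
  rw [intervalIntegral.integral_sub (by apply Continuous.intervalIntegrable; fun_prop)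
    (by apply Continuous.intervalIntegrable; fun_prop), intervalIntegral.integral_const_mul]
  simp [integral_id]
  ring

lemma term_le_D {α : ℝ} (h0 : 0 < α) (h1 : α < 1) (κ : ℝ) :
    κ * (1 / 2 - α) - ∫ t in (0 : ℝ)..1, log (cosh (κ * t)) ≤ rateD α := by
  have h2 : ∫ t in (0 : ℝ)..1, (κ * (1 - 2 * α) * t - rateD α) ≤
      ∫ t in (0 : ℝ)..1, log (cosh (κ * t)) :=
    intervalIntegral.integral_mono_on zero_le_one (by apply Continuous.intervalIntegrable; fun_prop)
      (by apply Continuous.intervalIntegrable; fun_prop) fun t _ => by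
        have := fenchel h0 h1 (κ * t)
        linarith
  rw [integral_lin] at h2
  linarith

lemma rateI_le_D {α : ℝ} (h0 : 0 < α) (h1 : α < 1) : rateI α ≤ rateD α :=
  ciSup_le (term_le_D h0 h1)

lemma term_le_I {α : ℝ} (h0 : 0 < α) (h1 : α < 1) (κ : ℝ) :
    κ * (1 / 2 - α) - ∫ t in (0 : ℝ)..1, log (cosh (κ * t)) ≤ rateI α :=
  le_ciSup (f := fun κ : ℝ => κ * (1 / 2 - α) - ∫ t in (0 : ℝ)..1, log (cosh (κ * t)))
    ⟨rateD α, by rintro _ ⟨κ, rfl⟩; exact term_le_D h0 h1 κ⟩ κ

lemma integral_sq (a : ℝ) : ∫ t in (0 : ℝ)..1, a * t ^ 2 = a / 3 := by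
  rw [intervalIntegral.integral_const_mul, integral_pow]
  norm_num
  ring

lemma le_rateI {α : ℝ} (h0 : 0 < α) (h1 : α < 1) : 3 / 2 * (1 / 2 - α) ^ 2 ≤ rateI α := by
  refine le_trans ?_ (term_le_I h0 h1 (3 * (1 / 2 - α)))
  have h2 : ∫ t in (0 : ℝ)..1, log (cosh (3 * (1 / 2 - α) * t)) ≤
      ∫ t in (0 : ℝ)..1, (3 * (1 / 2 - α)) ^ 2 / 2 * t ^ 2 :=
    intervalIntegral.integral_mono_on zero_le_one (by apply Continuous.intervalIntegrable; fun_prop)
      (by apply Continuous.intervalIntegrable; fun_prop) fun t _ => by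
        rw [log_le_iff_le_exp (cosh_pos _)]
        exact (cosh_le_exp_half_sq _).trans (le_of_eq (by congr 1; ring))
  rw [integral_sq] at h2
  linarith

lemma rateI_pos {α : ℝ} (h0 : 0 < α) (h1 : α < 1 / 2) : 0 < rateI α :=
  lt_of_lt_of_le (by have := sub_pos.2 h1; positivity) (le_rateI h0 (by linarith))

lemma log_approx {x : ℝ} (h : |x| ≤ 1 / 2) : |log (1 - x) + x + x ^ 2 / 2| ≤ 2 * |x| ^ 3 := by
  have h1 := abs_log_sub_add_sum_range_le (h.trans_lt (by norm_num)) 2
  simp only [sum_range_succ, sum_range_zero] at h1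
  norm_num at h1
  refine le_trans (le_of_eq (by congr 1; ring)) (h1.trans ?_)
  rw [div_le_iff₀ (by linarith)]
  nlinarith [pow_nonneg (abs_nonneg x) 3]

lemma rateD_approx {x : ℝ} (h0 : 0 ≤ x) (h : x ≤ 1 / 2) :
    |rateD ((1 - x) / 2) - x ^ 2 / 2| ≤ 2 * x ^ 3 := by
  have a1 := log_approx (x := x) (by rwa [abs_of_nonneg h0])
  have a2 := log_approx (x := -x) (by rwa [abs_neg, abs_of_nonneg h0])
  rw [abs_neg, sub_neg_eq_add] at a2
  rw [abs_of_nonneg h0, abs_le] at a1 a2
  have e : rateD ((1 - x) / 2) = ((1 - x) * log (1 - x) + (1 + x) * log (1 + x)) / 2 := by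
    unfold rateD
    rw [show 1 - (1 - x) / 2 = (1 + x) / 2 by ring, log_div (by linarith) two_ne_zero,
      log_div (by linarith) two_ne_zero]
    ring
  rw [e, abs_le]
  have b1 : 0 ≤ 1 - x := by linarith
  have b2 : 0 ≤ 1 + x := by linarith
  constructor
  · nlinarith [mul_le_mul_of_nonneg_left a1.1 b1, mul_le_mul_of_nonneg_left a2.1 b2]
  · nlinarith [mul_le_mul_of_nonneg_left a1.2 b1, mul_le_mul_of_nonneg_left a2.2 b2]

lemma rateI_le {ε : ℝ} (h0 : 0 ≤ ε) (h : ε ≤ 1 / 6) :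
    rateI (1 / 2 - ε) ≤ 3 / 2 * ε ^ 2 + 54 * ε ^ 3 := by
  refine ciSup_le fun κ => ?_
  have h2 : ∫ t in (0 : ℝ)..1, (3 * ε * κ - 9 / 2 * ε ^ 2 - 0) * t ^ 2 ≤
      ∫ t in (0 : ℝ)..1, (log (cosh (κ * t)) - (0 * t - 54 * ε ^ 3)) :=
    intervalIntegral.integral_mono_on zero_le_one (by apply Continuous.intervalIntegrable; fun_prop)
      (by apply Continuous.intervalIntegrable; fun_prop) fun t ht => by
        have a0 : 0 ≤ 3 * ε * t := by have := ht.1; positivity
        have a1 : 3 * ε * t ≤ 3 * ε := by nlinarith [ht.2]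
        have a2 := fenchel (p := (1 - 3 * ε * t) / 2) (by linarith) (by linarith) (κ * t)
        have a3 := (abs_le.1 (rateD_approx a0 (by linarith))).2
        have a4 := pow_le_pow_left₀ a0 a1 3
        nlinarith
  rw [integral_sq, intervalIntegral.integral_sub (by apply Continuous.intervalIntegrable; fun_prop)
    (by apply Continuous.intervalIntegrable; fun_prop), integral_lin] at h2
  linarith

lemma ratio_tendsto : Tendsto (fun α => 4 * rateI α / rateD α) (𝓝[<] (1 / 2)) (𝓝 3) := by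
  have t0 : Tendsto (fun α : ℝ => 1 / 2 - α) (𝓝[<] (1 / 2)) (𝓝 0) := by
    have := (tendsto_id.const_sub (1 / 2 : ℝ)).mono_left (nhdsWithin_le_nhds (s := Set.Iio (1 / 2))
      (a := (1 / 2 : ℝ)))
    rwa [sub_self] at this
  have t1 : Tendsto (fun α : ℝ => 4 * (3 / 2) / (2 + 16 * (1 / 2 - α))) (𝓝[<] (1 / 2)) (𝓝 3) := by
    have := (tendsto_const_nhds (x := (4 * (3 / 2) : ℝ))).div ((t0.const_mul 16).const_add 2)
      (by norm_num)
    norm_num at this ⊢
    exact this
  have t2 : Tendsto (fun α : ℝ => 4 * (3 / 2 + 54 * (1 / 2 - α)) / (2 - 16 * (1 / 2 - α)))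
      (𝓝[<] (1 / 2)) (𝓝 3) := by
    have := (((t0.const_mul 54).const_add (3 / 2)).const_mul 4).div
      ((t0.const_mul 16).const_sub 2) (by norm_num)
    norm_num at this ⊢
    exact this
  have e : ∀ᶠ α : ℝ in 𝓝[<] (1 / 2), 4 * (3 / 2) / (2 + 16 * (1 / 2 - α)) ≤ 4 * rateI α / rateD α ∧
      4 * rateI α / rateD α ≤ 4 * (3 / 2 + 54 * (1 / 2 - α)) / (2 - 16 * (1 / 2 - α)) := by
    filter_upwards [Ioo_mem_nhdsLT (show (2 / 5 : ℝ) < 1 / 2 by norm_num)] with α hα
    obtain ⟨ε, rfl⟩ : ∃ ε, α = 1 / 2 - ε := ⟨1 / 2 - α, by ring⟩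
    have e0 : 0 < ε := by linarith [hα.2]
    have e1 : ε < 1 / 10 := by linarith [hα.1]
    have a1 := le_rateI (α := 1 / 2 - ε) (by linarith) (by linarith)
    have a2 := rateI_le e0.le (by linarith)
    have a3 := abs_le.1 (rateD_approx (x := 2 * ε) (by linarith) (by linarith))
    rw [show (1 - 2 * ε) / 2 = 1 / 2 - ε by ring] at a3
    rw [sub_sub_cancel] at a1 ⊢
    have a4 : 0 < 2 - 16 * ε := by linarith
    have a5 : ε ^ 2 * (2 - 16 * ε) ≤ rateD (1 / 2 - ε) := by linarith [a3.1]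
    have a6 : 0 < rateD (1 / 2 - ε) := lt_of_lt_of_le (by positivity) a5
    have a7 : rateD (1 / 2 - ε) ≤ ε ^ 2 * (2 + 16 * ε) := by linarith [a3.2]
    constructor
    · rw [div_le_div_iff₀ (by linarith) a6]
      nlinarith [mul_le_mul_of_nonneg_right a1 (show 0 ≤ 2 + 16 * ε by linarith)]
    · rw [div_le_div_iff₀ a6 a4]
      nlinarith [mul_le_mul_of_nonneg_right a2 a4.le,
        mul_le_mul_of_nonneg_left a5 (show 0 ≤ 3 / 2 + 54 * ε by linarith)]
  exact tendsto_of_tendsto_of_tendsto_of_le_of_le' t1 t2 (e.mono fun _ h => h.1)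
    (e.mono fun _ h => h.2)

/-- The largest term of a binomial expansion. -/
lemma mode (m : ℕ) (y : ℝ) : ∃ i ≤ m,
    (2 : ℝ) ^ m / m.choose i ≤ (m + 1) * exp (y * (m - 2 * i) - m * log (cosh y)) ∧
      |(m : ℝ) - 2 * i - m * tanh y| ≤ 2 := by
  have ha := exp_pos (-y)
  have hb := exp_pos y
  obtain ⟨i, hi, hmax⟩ := exists_max_image (range (m + 1))
    (fun i => exp (-y) ^ i * exp y ^ (m - i) * (m.choose i : ℝ)) ⟨0, by simp⟩
  have him : i ≤ m := Nat.lt_succ_iff.1 (mem_range.1 hi)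
  have rel : ∀ j < m, ∃ X : ℝ, 0 < X ∧
      exp (-y) ^ j * exp y ^ (m - j) * (m.choose j : ℝ) = X * (exp y * (j + 1)) ∧
      exp (-y) ^ (j + 1) * exp y ^ (m - (j + 1)) * (m.choose (j + 1) : ℝ) =
        X * (exp (-y) * (m - j)) := fun j hj => by
    have h1 : (0 : ℝ) < m.choose j := by exact_mod_cast Nat.choose_pos hj.le
    have h2 : (m.choose (j + 1) : ℝ) * (j + 1) = m.choose j * (m - j) := by
      rw [← Nat.cast_sub hj.le]; exact_mod_cast Nat.choose_succ_right_eq m j
    refine ⟨exp (-y) ^ j * exp y ^ (m - (j + 1)) * m.choose j / (j + 1), by positivity, ?_, ?_⟩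
    · rw [show m - j = m - (j + 1) + 1 by omega, pow_succ]
      field_simp
    · rw [eq_div_of_mul_eq (by positivity) h2, pow_succ]
      field_simp
  have u1 : exp (-y) * (m - i) ≤ exp y * (i + 1) := by
    rcases him.eq_or_lt with e | e
    · rw [e, sub_self, mul_zero]; positivity
    · obtain ⟨X, x0, x1, x2⟩ := rel i e
      have := hmax (i + 1) (mem_range.2 (by omega))
      rw [x1, x2] at this
      exact le_of_mul_le_mul_left this x0
  have u2 : exp y * i ≤ exp (-y) * (m - i + 1) := by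
    rcases i with _ | j
    · simp only [Nat.cast_zero, mul_zero, sub_zero]; positivity
    · obtain ⟨X, x0, x1, x2⟩ := rel j him
      have := hmax j (mem_range.2 (by omega))
      rw [x1, x2] at this
      have := le_of_mul_le_mul_left this x0
      push_cast
      linarith
  refine ⟨i, him, ?_, ?_⟩
  · have h1 : (0 : ℝ) < m.choose i := by exact_mod_cast Nat.choose_pos him
    have h2 := sum_le_card_nsmul _ _ _ hmax
    rw [← add_pow, card_range, nsmul_eq_mul, show exp (-y) + exp y = 2 * cosh y by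
      rw [cosh_eq]; ring, mul_pow, ← exp_nat_mul, ← exp_nat_mul, ← exp_add, Nat.cast_sub him,
      Nat.cast_succ] at h2
    rw [exp_sub, exp_nat_mul, exp_log (cosh_pos y), ← mul_div_assoc,
      div_le_div_iff₀ h1 (pow_pos (cosh_pos y) m), mul_assoc]
    refine h2.trans (le_of_eq ?_)
    congr 3
    ring
  · have e : (m : ℝ) - 2 * i - m * tanh y =
        2 * (exp (-y) * m - i * (exp y + exp (-y))) / (exp y + exp (-y)) := by
      rw [tanh_eq]; field_simp; ring
    rw [e, abs_le, le_div_iff₀ (by positivity), div_le_iff₀ (by positivity)]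
    constructor <;> nlinarith

/-- Riemann sums of a monotone function. -/
lemma riemann {f : ℝ → ℝ} (hf : MonotoneOn f (Set.Ici 0)) (T : ℕ) (hT : 0 < T) :
    ∑ t ∈ range T, f (t / T) ≤ T * ∫ s in (0 : ℝ)..1, f s ∧
      T * (∫ s in (0 : ℝ)..1, f s) + f 0 - f 1 ≤ ∑ t ∈ range T, f (t / T) := by
  have hT' : (0 : ℝ) < T := by exact_mod_cast hT
  have hm : MonotoneOn (fun x => f (x / T)) (Set.Icc 0 (0 + (T : ℝ))) := fun x hx y hy hxy =>
    hf (div_nonneg hx.1 hT'.le) (div_nonneg hy.1 hT'.le) (by gcongr)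
  have h1 := hm.sum_le_integral
  have h2 := hm.integral_le_sum
  have h3 := sum_range_succ' (fun t : ℕ => f (t / T)) T
  rw [sum_range_succ] at h3
  simp only [zero_add, intervalIntegral.integral_comp_div _ hT'.ne', zero_div, div_self hT'.ne',
    smul_eq_mul, Nat.cast_zero] at h1 h2 h3
  exact ⟨h1, by linarith⟩

lemma tanh_mono : Monotone tanh := fun x y h => by
  rw [tanh_eq_sinh_div_cosh, tanh_eq_sinh_div_cosh, div_le_div_iff₀ (cosh_pos x) (cosh_pos y)]
  have := sinh_nonneg_iff.2 (sub_nonneg.2 h)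
  rw [sinh_sub] at this
  linarith

lemma tanh_nonneg' {y : ℝ} (h : 0 ≤ y) : 0 ≤ tanh y := tanh_zero ▸ tanh_mono h

lemma mul_one_sub_tanh {y : ℝ} (_h : 0 ≤ y) : y * (1 - tanh y) ≤ 1 := by
  have ha := exp_pos (-y)
  have hb := exp_pos y
  have e : y * (1 - tanh y) = 2 * y * exp (-y) / (exp y + exp (-y)) := by
    rw [tanh_eq]; field_simp; ring
  have e2 : exp y = exp (2 * y) * exp (-y) := by rw [← exp_add]; congr 1; ring
  rw [e, div_le_one (by positivity), e2]
  nlinarith [add_one_le_exp (2 * y)]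

/-- The choice of the profile. -/
lemma profile {α η : ℝ} (h0 : 0 < α) (h1 : α < 1 / 2) (hη : 0 < η) :
    ∃ (T : ℕ) (κ : ℝ), 0 < T ∧ 0 ≤ κ ∧
      ∑ t ∈ range T, (κ * (t / T) * tanh (κ * (t / T)) - log (cosh (κ * (t / T)))) ≤
        T * (rateI α + η) ∧
      ∑ t ∈ range T, (t : ℝ) * (1 - tanh (κ * (t / T))) + 6 * T ≤ α * T ^ 2 := by
  have hc : Continuous fun κ : ℝ => ∫ s in (0 : ℝ)..1, s * tanh (κ * s) :=
    intervalIntegral.continuous_parametric_intervalIntegral_of_continuous' (by fun_prop) 0 1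
  have hK : 1 / 2 - α / 2 ≤ ∫ s in (0 : ℝ)..1, s * tanh (2 / α * s) := by
    rw [← integral_lin 1 (α / 2)]
    refine intervalIntegral.integral_mono_on zero_le_one
      (by apply Continuous.intervalIntegrable; fun_prop)
      (by apply Continuous.intervalIntegrable; fun_prop) fun s hs => ?_
    have a1 := mul_one_sub_tanh (y := 2 / α * s) (by have := hs.1; positivity)
    have a2 := mul_le_mul_of_nonneg_left a1 (half_pos h0).le
    have a3 : α / 2 * (2 / α * s * (1 - tanh (2 / α * s))) = s * (1 - tanh (2 / α * s)) := by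
      field_simp
    linarith
  set ζ := min (α / 2) (η * α / 4) with hζ
  have z0 : 0 < ζ := by positivity
  have z1 : ζ ≤ α / 2 := min_le_left _ _
  have z2 : ζ ≤ η * α / 4 := min_le_right _ _
  obtain ⟨κ, hκ, eκ⟩ := intermediate_value_Icc (show (0 : ℝ) ≤ 2 / α by positivity) hc.continuousOn
    (show 1 / 2 - α + ζ ∈ Set.Icc _ _ from ⟨by simp; linarith, by linarith⟩)
  have eκ' : ∫ s in (0 : ℝ)..1, s * tanh (κ * s) = 1 / 2 - α + ζ := eκ
  obtain ⟨T, hT⟩ := exists_nat_ge (7 / ζ + 4 / (α * η))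
  have p1 : 0 < 7 / ζ := by positivity
  have p2 : 0 < 4 / (α * η) := by positivity
  have T0 : (0 : ℝ) < T := by linarith
  have T1 : 0 < T := by exact_mod_cast T0
  have T2 : 7 ≤ T * ζ := (div_le_iff₀ z0).1 (by linarith)
  have T3 : 4 ≤ T * (α * η) := (div_le_iff₀ (by positivity)).1 (by linarith)
  have k1 : κ * α ≤ 2 := (le_div_iff₀ h0).1 hκ.2
  obtain ⟨r1, r2⟩ := riemann (f := fun s => s * tanh (κ * s)) (fun x hx y _ hxy =>
    mul_le_mul hxy (tanh_mono (mul_le_mul_of_nonneg_left hxy hκ.1))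
      (tanh_nonneg' (mul_nonneg hκ.1 hx)) (hx.trans hxy)) T T1
  obtain ⟨-, r3⟩ := riemann (f := fun s => log (cosh (κ * s))) (fun x hx y _ hxy =>
    log_le_log (cosh_pos _) (cosh_le_cosh.2 (by
      rw [abs_of_nonneg (mul_nonneg hκ.1 hx), abs_of_nonneg (mul_nonneg hκ.1 (hx.trans hxy))]
      exact mul_le_mul_of_nonneg_left hxy hκ.1))) T T1
  obtain ⟨r4, -⟩ := riemann (f := fun s => s) (fun x _ y _ hxy => hxy) T T1
  simp only [eκ', mul_zero, mul_one, one_mul, zero_mul, cosh_zero, log_one, add_zero,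
    integral_id] at r1 r2 r3 r4
  refine ⟨T, κ, T1, hκ.1, ?_, ?_⟩
  · have a1 : log (cosh κ) ≤ κ := by
      rw [log_le_iff_le_exp (cosh_pos _), cosh_eq]
      have := exp_le_exp.2 (show -κ ≤ κ by linarith [hκ.1])
      linarith
    have a2 := mul_le_mul_of_nonneg_left (term_le_I h0 (by linarith) κ) T0.le
    have a3 := mul_le_mul_of_nonneg_left r1 hκ.1
    have a4 : κ * ζ ≤ η / 2 := by nlinarith [mul_le_mul_of_nonneg_left z2 hκ.1]
    have a5 : κ ≤ T * η / 2 := by
      refine le_of_mul_le_mul_right ?_ h0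
      nlinarith
    have a6 := mul_le_mul_of_nonneg_left a4 T0.le
    simp only [sum_sub_distrib, mul_assoc κ, ← mul_sum]
    nlinarith
  · have e : ∀ t : ℕ, (t : ℝ) * (1 - tanh (κ * (t / T))) =
        T * (t / T - t / T * tanh (κ * (t / T))) := fun t => by field_simp
    simp only [e, ← mul_sum, sum_sub_distrib]
    have a1 := (tanh_lt_one κ).le
    have a2 : ∑ t ∈ range T, (t : ℝ) / T - ∑ t ∈ range T, (t : ℝ) / T * tanh (κ * (t / T)) + 6 ≤
        α * T := by nlinarith
    nlinarith [mul_le_mul_of_nonneg_left a2 T0.le]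

end Pool.Agent.MP_dd175f_co
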