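import Mathlib
import Pool.Prelude.Def_F_17a98086

/-! The block version of the Erdos-Szekeres argument. -/

set_option autoImplicit false

namespace Pool.Agent.MP_dd175f_co

open Finset Nb34004ea

variable {n : ℕ}

/-- The number of edges of colour `b` from `v` to `A`. -/
def dg (c : Sym2 (Fin n) → Bool) (b : Bool) (v : Fin n) (A : Finset (Fin n)) : ℕ :=
  (A.filter fun a => c s(v, a) = b).card

lemma count_union (c : Sym2 (Fin n) → Bool) (b : Bool) (A H : Finset (Fin n)) :
    colourEdgeCount c (A ∪ H) b ≤ colourEdgeCount c H b + A.card ^ 2 + ∑ v ∈ H, dg c b v A := by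
  unfold colourEdgeCount
  have h1 : (A ∪ H).sym2.filter (fun e => ¬ e.IsDiag ∧ c e = b) ⊆
      (H.sym2.filter (fun e => ¬ e.IsDiag ∧ c e = b) ∪ (A ×ˢ A).image fun p => s(p.1, p.2)) ∪
        H.biUnion fun v => (A.filter fun a => c s(v, a) = b).image fun a => s(v, a) := by
    intro e he
    induction e using Sym2.ind with
    | h x y =>
      rw [mem_filter, mk_mem_sym2_iff, mem_union, mem_union] at he
      obtain ⟨⟨hx | hx, hy | hy⟩, h⟩ := he
      · exact mem_union_left _ (mem_union_right _ (mem_image.2 ⟨(x, y), mk_mem_product hx hy, rfl⟩))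
      · exact mem_union_right _ (mem_biUnion.2 ⟨y, hy, mem_image.2
          ⟨x, mem_filter.2 ⟨hx, by rw [Sym2.eq_swap]; exact h.2⟩, Sym2.eq_swap⟩⟩)
      · exact mem_union_right _ (mem_biUnion.2 ⟨x, hx, mem_image.2
          ⟨y, mem_filter.2 ⟨hy, h.2⟩, rfl⟩⟩)
      · exact mem_union_left _ (mem_union_left _ (mem_filter.2 ⟨mk_mem_sym2_iff.2 ⟨hx, hy⟩, h⟩))
  refine (card_le_card h1).trans ((card_union_le _ _).trans (Nat.add_le_add
    ((card_union_le _ _).trans (Nat.add_le_add_left (card_image_le.trans ?_) _))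
    (card_biUnion_le.trans (sum_le_sum fun v _ => card_image_le))))
  rw [card_product, sq]

/-- Many blocks see few edges of the minority colour of `v`. -/
lemma many_blocks (c : Sym2 (Fin n) → Bool) (b : Bool) (P : Finset (Fin n)) (v : Fin n)
    (hv : v ∈ P) (hb : dg c b v (P.erase v) ≤ dg c (!b) v (P.erase v)) (m i : ℕ) (hi : i ≤ m) :
    ((P.card - 1) / 2).choose (m - i) * ((P.card - 1) / 2).choose i ≤
      ((P.powersetCard m).filter fun A => v ∉ A ∧ dg c b v A ≤ i).card := by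
  have h0 : dg c b v (P.erase v) + dg c (!b) v (P.erase v) = P.card - 1 := by
    rw [← card_erase_of_mem hv, ← card_filter_add_card_filter_not (fun a => c s(v, a) = b)]
    unfold dg
    congr 2
    exact filter_congr fun a _ => by cases b <;> simp
  obtain ⟨D, hD, hDc⟩ := exists_subset_card_eq
    (s := (P.erase v).filter fun a => c s(v, a) = !b) (n := (P.card - 1) / 2)
    (by change _ ≤ dg c (!b) v (P.erase v); omega)
  have hD' : D ⊆ P.erase v := hD.trans (filter_subset _ _)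
  obtain ⟨E, hE, hEc⟩ := exists_subset_card_eq (s := P.erase v \ D) (n := (P.card - 1) / 2)
    (by rw [card_sdiff_of_subset hD', card_erase_of_mem hv, hDc]; omega)
  have hDE : Disjoint D E := disjoint_of_subset_right hE disjoint_sdiff
  have hE' : E ⊆ P.erase v := hE.trans sdiff_subset
  have e : ((P.card - 1) / 2).choose (m - i) * ((P.card - 1) / 2).choose i =
      (D.powersetCard (m - i) ×ˢ E.powersetCard i).card := by
    rw [card_product, card_powersetCard, card_powersetCard, hDc, hEc]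
  rw [e]
  refine card_le_card_of_injOn (fun p => p.1 ∪ p.2) (fun p hp => ?_) (fun p hp q hq hpq => ?_)
  · rw [coe_product] at hp
    obtain ⟨h1, h2⟩ := mem_powersetCard.1 hp.1
    obtain ⟨h3, h4⟩ := mem_powersetCard.1 hp.2
    have h5 : p.1 ∪ p.2 ⊆ P.erase v := union_subset (h1.trans hD') (h3.trans hE')
    refine mem_coe.2 (mem_filter.2 ⟨mem_powersetCard.2 ⟨h5.trans (erase_subset _ _), ?_⟩,
      fun h => notMem_erase v P (h5 h), ?_⟩)
    · rw [card_union_of_disjoint (Disjoint.mono h1 h3 hDE), h2, h4]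
      omega
    · rw [← h4]
      refine card_le_card fun a ha => ?_
      obtain ⟨a1, a2⟩ := mem_filter.1 ha
      refine (mem_union.1 a1).resolve_left fun a3 => ?_
      have := (mem_filter.1 (hD (h1 a3))).2
      rw [a2] at this
      simp at this
  · rw [coe_product] at hp hq
    have p1 := (mem_powersetCard.1 hp.1).1
    have p2 := (mem_powersetCard.1 hp.2).1
    have q1 := (mem_powersetCard.1 hq.1).1
    have q2 := (mem_powersetCard.1 hq.2).1
    have hpq' : p.1 ∪ p.2 = q.1 ∪ q.2 := hpq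
    have k : ∀ a, a ∈ D → a ∈ E → False := fun a h1 h2 => disjoint_left.1 hDE h1 h2
    have k2 : ∀ a, a ∈ p.1 ∨ a ∈ p.2 ↔ a ∈ q.1 ∨ a ∈ q.2 := fun a => by
      rw [← mem_union, ← mem_union, hpq']
    refine Prod.ext (Finset.ext fun a => ⟨fun h => ?_, fun h => ?_⟩)
      (Finset.ext fun a => ⟨fun h => ?_, fun h => ?_⟩)
    · exact ((k2 a).1 (Or.inl h)).resolve_right fun h' => k a (p1 h) (q2 h')
    · exact ((k2 a).2 (Or.inl h)).resolve_right fun h' => k a (q1 h) (p2 h')
    · exact ((k2 a).1 (Or.inr h)).resolve_left fun h' => k a (q1 h') (p2 h)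
    · exact ((k2 a).2 (Or.inr h)).resolve_left fun h' => k a (p1 h') (q2 h)

lemma choose_ineq (N m i : ℕ) (hi : i ≤ m) (hm : 0 < m) (hN : 4 * m ^ 2 ≤ N) :
    (N.choose m : ℝ) * m.choose i ≤
      2 * 2 ^ m * ((((N - 1) / 2).choose (m - i) * ((N - 1) / 2).choose i : ℕ) : ℝ) := by
  set h := (N - 1) / 2 with hh
  have hm2 : m ≤ m ^ 2 := Nat.le_self_pow two_ne_zero m
  have hN0 : (0 : ℝ) < N := by exact_mod_cast (by nlinarith : 0 < N)
  have hx : (0 : ℝ) ≤ N / 2 - m := by
    have : (2 * m : ℝ) ≤ N := by exact_mod_cast (by omega : 2 * m ≤ N)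
    linarith
  have key : ∀ r ≤ m, ((N : ℝ) / 2 - m) ^ r / r.factorial ≤ h.choose r := fun r hr => by
    refine le_trans ?_ (Nat.pow_le_choose r h)
    have h1 : (N : ℝ) / 2 - m ≤ ((h + 1 - r : ℕ) : ℝ) := by
      have : (N : ℝ) ≤ 2 * ((h + 1 - r : ℕ) : ℝ) + 2 * m := by
        exact_mod_cast (by omega : N ≤ 2 * (h + 1 - r) + 2 * m)
      linarith
    gcongr
  have h1 : (N.choose m : ℝ) ≤ (N : ℝ) ^ m / m.factorial := Nat.choose_le_pow_div m N
  have h2 : (m.choose i : ℝ) = m.factorial / (i.factorial * (m - i).factorial) :=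
    Nat.cast_choose ℝ hi
  have h3 : (N : ℝ) ^ m ≤ 2 * 2 ^ m * ((N : ℝ) / 2 - m) ^ m := by
    have a1 := one_add_mul_le_pow (a := -(2 * m / N : ℝ)) (by
      have : (2 * m / N : ℝ) ≤ 1 := by rw [div_le_one hN0]; linarith
      linarith) m
    have a2 : (1 / 2 : ℝ) ≤ 1 + m * -(2 * m / N : ℝ) := by
      have a3 : (4 * m ^ 2 : ℝ) ≤ N := by exact_mod_cast hN
      have : (m * (2 * m / N) : ℝ) ≤ 1 / 2 := by
        rw [← mul_div_assoc, div_le_iff₀ hN0]; nlinarith
      linarith
    have a4 : (2 : ℝ) ^ m * ((N : ℝ) / 2 - m) ^ m = (N : ℝ) ^ m * (1 + -(2 * m / N : ℝ)) ^ m := by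
      rw [← mul_pow, ← mul_pow]
      congr 1
      field_simp
      ring
    rw [mul_assoc, a4]
    nlinarith [pow_pos hN0 m]
  have h4 : ((N : ℝ) / 2 - m) ^ m = ((N : ℝ) / 2 - m) ^ (m - i) * ((N : ℝ) / 2 - m) ^ i := by
    rw [← pow_add, Nat.sub_add_cancel hi]
  have f1 : (0 : ℝ) < m.factorial := by positivity
  calc (N.choose m : ℝ) * m.choose i
      ≤ (N : ℝ) ^ m / m.factorial * (m.factorial / (i.factorial * (m - i).factorial)) := by
        rw [h2]; gcongr
    _ = (N : ℝ) ^ m / (i.factorial * (m - i).factorial) := by field_simp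
    _ ≤ 2 * 2 ^ m * ((N : ℝ) / 2 - m) ^ m / (i.factorial * (m - i).factorial) := by gcongr
    _ = 2 * 2 ^ m * (((N : ℝ) / 2 - m) ^ (m - i) / (m - i).factorial *
          (((N : ℝ) / 2 - m) ^ i / i.factorial)) := by rw [h4]; field_simp
    _ ≤ _ := by
        rw [Nat.cast_mul]
        gcongr
        · exact key _ (Nat.sub_le _ _)
        · exact key _ hi

/-- One step: a block, and a large pool of vertices that see few edges of colour `b` to it. -/
lemma step (c : Sym2 (Fin n) → Bool) (P : Finset (Fin n)) (m : ℕ) (hm : 0 < m)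
    (hN : 4 * m ^ 2 ≤ P.card) : ∃ b : Bool, ∀ i ≤ m, ∃ A ⊆ P, A.card = m ∧ ∃ Q ⊆ P, Disjoint A Q ∧
      (∀ v ∈ Q, dg c b v A ≤ i) ∧ (P.card : ℝ) * m.choose i ≤ 4 * 2 ^ m * Q.card := by
  obtain ⟨b, hb⟩ : ∃ b : Bool, P.card ≤
      2 * (P.filter fun v => dg c b v (P.erase v) ≤ dg c (!b) v (P.erase v)).card := by
    by_contra hn
    push Not at hn
    have h1 := hn true
    have h2 := hn false
    have h3 : P ⊆ (P.filter fun v => dg c true v (P.erase v) ≤ dg c (!true) v (P.erase v)) ∪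
        P.filter fun v => dg c false v (P.erase v) ≤ dg c (!false) v (P.erase v) := fun v hv => by
      rcases le_total (dg c true v (P.erase v)) (dg c false v (P.erase v)) with h | h
      · exact mem_union_left _ (mem_filter.2 ⟨hv, h⟩)
      · exact mem_union_right _ (mem_filter.2 ⟨hv, h⟩)
    have h4 := (card_le_card h3).trans (card_union_le _ _)
    omega
  refine ⟨b, fun i hi => ?_⟩
  set S := P.filter fun v => dg c b v (P.erase v) ≤ dg c (!b) v (P.erase v)
  set K := ((P.card - 1) / 2).choose (m - i) * ((P.card - 1) / 2).choose i with hK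
  have hm2 : m ≤ m ^ 2 := Nat.le_self_pow two_ne_zero m
  have h1 : S.card * K ≤
      ∑ A ∈ P.powersetCard m, (S.filter fun v => v ∉ A ∧ dg c b v A ≤ i).card := by
    have e : ∑ A ∈ P.powersetCard m, (S.filter fun v => v ∉ A ∧ dg c b v A ≤ i).card =
        ∑ v ∈ S, ((P.powersetCard m).filter fun A => v ∉ A ∧ dg c b v A ≤ i).card := by
      simp only [card_filter]
      exact sum_comm
    rw [e, ← smul_eq_mul, ← sum_const]
    exact sum_le_sum fun v hv => many_blocks c b P v (mem_filter.1 hv).1 (mem_filter.1 hv).2 m i hi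
  obtain ⟨A, hA, hmax⟩ := exists_max_image (P.powersetCard m)
    (fun A => (S.filter fun v => v ∉ A ∧ dg c b v A ≤ i).card)
    (powersetCard_nonempty.2 (by omega))
  have h2 := h1.trans (sum_le_card_nsmul _ _ _ hmax)
  rw [card_powersetCard, smul_eq_mul] at h2
  refine ⟨A, (mem_powersetCard.1 hA).1, (mem_powersetCard.1 hA).2,
    S.filter fun v => v ∉ A ∧ dg c b v A ≤ i,
    (filter_subset _ S).trans (filter_subset _ _),
    disjoint_left.2 fun v h h' => (mem_filter.1 h').2.1 h, fun v hv => (mem_filter.1 hv).2.2, ?_⟩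
  have h3 := choose_ineq P.card m i hi hm hN
  have h4 : (0 : ℝ) < P.card.choose m := by exact_mod_cast Nat.choose_pos (by omega)
  have h5 : (P.card : ℝ) ≤ 2 * S.card := by exact_mod_cast hb
  have h6 : (S.card : ℝ) * K ≤ P.card.choose m *
      (S.filter fun v => v ∉ A ∧ dg c b v A ≤ i).card := by exact_mod_cast h2
  refine le_of_mul_le_mul_left ?_ h4
  calc (P.card.choose m : ℝ) * (P.card * m.choose i) = P.card * (P.card.choose m * m.choose i) := by
        ring
    _ ≤ (2 * S.card) * (2 * 2 ^ m * K) := by gcongr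
    _ = 4 * 2 ^ m * (S.card * K) := by ring
    _ ≤ 4 * 2 ^ m * (P.card.choose m * (S.filter fun v => v ∉ A ∧ dg c b v A ≤ i).card) := by
        gcongr
    _ = _ := by ring

/-- The loss in the size of the pool after `L` blocks. -/
noncomputable def loss (m : ℕ) (i : ℕ → ℕ) (L : ℕ) : ℝ :=
  ∏ t ∈ range L, 4 * 2 ^ m / (m.choose (i t) : ℝ)

lemma one_le_loss (m : ℕ) (i : ℕ → ℕ) (hi : ∀ t, i t ≤ m) (L : ℕ) : 1 ≤ loss m i L := by
  refine Finset.one_le_prod fun t _ => ?_
  have h1 : (0 : ℝ) < m.choose (i t) := by exact_mod_cast Nat.choose_pos (hi t)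
  have h2 : (m.choose (i t) : ℝ) ≤ 2 ^ m := by exact_mod_cast Nat.choose_le_two_pow m (i t)
  rw [le_div_iff₀ h1]
  linarith

/-- A union of `L` blocks with few edges of colour `b`. -/
def Good (c : Sym2 (Fin n) → Bool) (m : ℕ) (i : ℕ → ℕ) (b : Bool) (L : ℕ) (H : Finset (Fin n)) :
    Prop :=
  H.card = L * m ∧ colourEdgeCount c H b ≤ ∑ t ∈ range L, (m ^ 2 + t * m * i t)

lemma Good.succ {c : Sym2 (Fin n) → Bool} {m : ℕ} {i : ℕ → ℕ} {b : Bool} {L : ℕ}
    {A H : Finset (Fin n)} (h : Good c m i b L H) (hA : A.card = m) (hd : Disjoint A H)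
    (hv : ∀ v ∈ H, dg c b v A ≤ i L) : Good c m i b (L + 1) (A ∪ H) := by
  refine ⟨by rw [card_union_of_disjoint hd, hA, h.1]; ring, (count_union c b A H).trans ?_⟩
  have h1 := sum_le_card_nsmul _ _ _ hv
  rw [h.1, smul_eq_mul] at h1
  rw [sum_range_succ, hA]
  have := h.2
  omega

lemma chain (c : Sym2 (Fin n) → Bool) (m : ℕ) (hm : 0 < m) (i : ℕ → ℕ) (hi : ∀ t, i t ≤ m)
    (p q : ℕ) (P : Finset (Fin n)) (hP : 4 * (m : ℝ) ^ 2 * loss m i p * loss m i q ≤ P.card) :
    ∃ H ⊆ P, Good c m i true p H ∨ Good c m i false q H := by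
  induction p generalizing q P with
  | zero => exact ⟨∅, empty_subset _, Or.inl ⟨by simp, by simp [colourEdgeCount]⟩⟩
  | succ p ihp =>
    induction q generalizing P with
    | zero => exact ⟨∅, empty_subset _, Or.inr ⟨by simp, by simp [colourEdgeCount]⟩⟩
    | succ q ihq =>
      have l1 := one_le_loss m i hi
      have hN : 4 * m ^ 2 ≤ P.card := by
        have h1 : 4 * (m : ℝ) ^ 2 * 1 * 1 ≤ 4 * (m : ℝ) ^ 2 * loss m i (p + 1) * loss m i (q + 1) := by
          have := l1 (p + 1)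
          gcongr
          exact l1 (q + 1)
        have h2 : (4 * (m : ℝ) ^ 2) ≤ P.card := by linarith
        exact_mod_cast h2
      have key : ∀ (X : ℝ) (t : ℕ) (Q : Finset (Fin n)),
          X * (4 * 2 ^ m / (m.choose (i t) : ℝ)) ≤ P.card →
          (P.card : ℝ) * m.choose (i t) ≤ 4 * 2 ^ m * Q.card → X ≤ Q.card := fun X t Q h1 h2 => by
        have h3 : (0 : ℝ) < m.choose (i t) := by exact_mod_cast Nat.choose_pos (hi t)
        rw [← mul_div_assoc, div_le_iff₀ h3] at h1
        exact le_of_mul_le_mul_left (a := 4 * 2 ^ m) (by linarith) (by positivity)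
      obtain ⟨b, hb⟩ := step c P m hm hN
      cases b with
      | true =>
        obtain ⟨A, a1, a2, Q, a3, a4, a5, a6⟩ := hb (i p) (hi p)
        obtain ⟨H, h1, h2 | h2⟩ := ihp (q + 1) Q (key _ p Q (by
          rw [loss, prod_range_succ] at hP
          refine le_trans (le_of_eq ?_) hP
          rw [loss]; ring) a6)
        · exact ⟨A ∪ H, union_subset a1 (h1.trans a3), Or.inl
            (h2.succ a2 (disjoint_of_subset_right h1 a4) fun v hv => a5 v (h1 hv))⟩
        · exact ⟨H, h1.trans a3, Or.inr h2⟩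
      | false =>
        obtain ⟨A, a1, a2, Q, a3, a4, a5, a6⟩ := hb (i q) (hi q)
        obtain ⟨H, h1, h2 | h2⟩ := ihq Q (key _ q Q (by
          rw [loss.eq_1 m i (q + 1), prod_range_succ] at hP
          refine le_trans (le_of_eq ?_) hP
          rw [loss.eq_1 m i q]; ring) a6)
        · exact ⟨H, h1.trans a3, Or.inl h2⟩
        · exact ⟨A ∪ H, union_subset a1 (h1.trans a3), Or.inr
            (h2.succ a2 (disjoint_of_subset_right h1 a4) fun v hv => a5 v (h1 hv))⟩

/-- The combinatorial lower bound. -/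
lemma lt_F (α : ℝ) (m : ℕ) (hm : 0 < m) (i : ℕ → ℕ) (hi : ∀ t, i t ≤ m) (T : ℕ)
    (h1 : 4 * (m : ℝ) ^ 2 * loss m i T * loss m i T ≤ n)
    (h2 : ((∑ t ∈ range T, (m ^ 2 + t * m * i t) : ℕ) : ℝ) ≤ α * ((T * m).choose 2 : ℕ)) :
    T * m < F n α := by
  have hne : {k : ℕ | ∃ c : Sym2 (Fin n) → Bool, IsBalancedAbove n α c k}.Nonempty :=
    ⟨n + 1, fun _ => true, fun H hH => absurd (hH.trans (card_le_univ H)) (by simp)⟩
  obtain ⟨c, hc⟩ := Nat.sInf_mem hne
  by_contra hn
  obtain ⟨H, -, h3⟩ := chain c m hm i hi T T univ (by simpa using h1)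
  obtain ⟨b, h4, h5⟩ : ∃ b, Good c m i b T H := h3.elim (fun h => ⟨_, h⟩) fun h => ⟨_, h⟩
  have h6 := hc H (by rw [h4]; exact not_lt.1 hn) b
  rw [h4] at h6
  exact absurd (h6.trans_le (Nat.cast_le.2 h5)) (not_lt.2 h2)

end Pool.Agent.MP_dd175f_co
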