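import Mathlib

set_option autoImplicit false

namespace Pool.Agent.MP_dd175f_co

/-- The rate `sup over κ of κ (1/2 - α) - ∫ log cosh (κ t) dt`, the integral over `[0,1]`. -/
noncomputable def rateI (α : ℝ) : ℝ :=
  ⨆ κ : ℝ, (κ * (1 / 2 - α) - ∫ t in (0 : ℝ)..1, Real.log (Real.cosh (κ * t)))

/-- The relative entropy of a coin with bias `α` with respect to a fair coin. -/
noncomputable def rateD (α : ℝ) : ℝ :=
  Real.log 2 + α * Real.log α + (1 - α) * Real.log (1 - α)

end Pool.Agent.MP_dd175f_co
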