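import Pool.Agent.MP_dd175f_co.Upper

set_option autoImplicit false

namespace Pool.Agent.MP_dd175f_co.RatioThree

open Filter Topology Pool.Agent.MP_dd175f_co

theorem result (ρ : ℝ) (hρ : 3 < ρ) :
    ∃ α₀ : ℝ, α₀ < 1 / 2 ∧ ∀ α : ℝ, α₀ < α → α < 1 / 2 → ∃ c : ℝ, 0 < c ∧
      ∀ᶠ n : ℕ in Filter.atTop,
        c * Real.log n ≤ Nb34004ea.F n α ∧ Nb34004ea.F n α ≤ ρ * c * Real.log n := by
  have h := (ratio_tendsto.eventually_lt_const hρ).and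
    (Ioo_mem_nhdsLT (show (0 : ℝ) < 1 / 2 by norm_num))
  obtain ⟨a, ha, h2⟩ := mem_nhdsLT_iff_exists_Ioo_subset.1 h
  refine ⟨a, ha, fun α h3 h4 => ?_⟩
  obtain ⟨h5, h0, h1⟩ := h2 ⟨h3, h4⟩
  have hI := rateI_pos h0 h1
  have hD : 0 < rateD α := hI.trans_le (rateI_le_D h0 (by linarith))
  have hρ0 : 0 < ρ := by linarith
  have h6 : 2 / rateD α / ρ < 1 / (2 * rateI α) := by
    rw [div_lt_iff₀ hD] at h5
    rw [div_div, div_lt_div_iff₀ (by positivity) (by positivity)]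
    linarith
  obtain ⟨c, hc1, hc2⟩ := exists_between h6
  refine ⟨c, lt_trans (by positivity) hc1, (lower h0 h1 hc2).and (upper h0 h1 ?_)⟩
  rwa [div_lt_iff₀' hρ0] at hc1

end Pool.Agent.MP_dd175f_co.RatioThree
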