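import Pool.Agent.MP_dd175f_co.Comb
import Pool.Agent.MP_dd175f_co.Calc

set_option autoImplicit false

namespace Pool.Agent.MP_dd175f_co

open Real Finset Filter Topology Nb34004ea

lemma poly_le_exp (A : ℝ) {η : ℝ} (hη : 0 < η) :
    ∀ᶠ m : ℕ in atTop, A * (m : ℝ) ^ 2 ≤ exp (η * m) := by
  filter_upwards [tendsto_natCast_atTop_atTop.eventually_ge_atTop (6 * A / η ^ 3)] with m hm
  have h0 : (0 : ℝ) ≤ m := Nat.cast_nonneg m
  have h1 := pow_div_factorial_le_exp (η * m) (by positivity) 3
  rw [div_le_iff₀ (by positivity)] at hm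
  refine le_trans ?_ h1
  rw [le_div_iff₀ (by positivity)]
  norm_num [Nat.factorial]
  nlinarith [mul_le_mul_of_nonneg_right hm (sq_nonneg (m : ℝ))]

lemma lt_F_exp {α η : ℝ} (h0 : 0 < α) (h1 : α < 1 / 2) (hη : 0 < η) :
    ∃ T : ℕ, 0 < T ∧ ∀ᶠ m : ℕ in atTop, ∀ n : ℕ,
      exp (2 * m * T * (rateI α + 2 * η)) ≤ n → T * m < F n α := by
  obtain ⟨T, κ, hT, hκ, hA, hB⟩ := profile h0 h1 hη
  refine ⟨T, hT, ?_⟩
  filter_upwards [poly_le_exp (16 * exp (2 * κ)) hη, eventually_ge_atTop T] with m hm hmT n hn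
  have hm0 : 0 < m := by omega
  have hm1 : (1 : ℝ) ≤ m := by exact_mod_cast hm0
  have hT' : (0 : ℝ) < T := by exact_mod_cast hT
  have hmT' : (T : ℝ) ≤ m := by exact_mod_cast hmT
  choose i hi hi1 hi2 using fun t : ℕ => mode m (κ * (t / T))
  refine lt_F α m hm0 i hi T (le_trans ?_ hn) ?_
  · have hl : loss m i T ≤ (4 * (m + 1) * exp (2 * κ)) ^ T * exp (m * (T * (rateI α + η))) := by
      unfold loss
      calc ∏ t ∈ range T, 4 * 2 ^ m / (m.choose (i t) : ℝ)
          ≤ ∏ t ∈ range T, (4 * (m + 1) * exp (2 * κ)) *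
            exp (m * (κ * (t / T) * tanh (κ * (t / T)) - log (cosh (κ * (t / T))))) := by
            refine prod_le_prod (fun t _ => by positivity) fun t ht => ?_
            have y0 : 0 ≤ κ * (t / T) := by positivity
            have y1 : κ * (t / T) ≤ κ := mul_le_of_le_one_right hκ
              ((div_le_one hT').2 (by exact_mod_cast (mem_range.1 ht).le))
            have a := (abs_le.1 (hi2 t)).2
            rw [mul_div_assoc, mul_assoc, mul_assoc, ← exp_add]
            refine mul_le_mul_of_nonneg_left ((hi1 t).trans ?_) (by norm_num)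
            refine mul_le_mul_of_nonneg_left (exp_le_exp.2 ?_) (by positivity)
            nlinarith [mul_le_mul_of_nonneg_left a y0]
        _ = (4 * (m + 1) * exp (2 * κ)) ^ T * exp (m * ∑ t ∈ range T,
            (κ * (t / T) * tanh (κ * (t / T)) - log (cosh (κ * (t / T))))) := by
            rw [prod_mul_distrib, prod_const, card_range, ← exp_sum, mul_sum]
        _ ≤ _ := by gcongr
    have h2 : 2 * (m : ℝ) * (4 * (m + 1) * exp (2 * κ)) ^ T ≤ exp (η * m * T) := by
      calc 2 * (m : ℝ) * (4 * (m + 1) * exp (2 * κ)) ^ T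
          ≤ (2 * (m : ℝ)) ^ T * (4 * (m + 1) * exp (2 * κ)) ^ T := by
            gcongr
            exact le_self_pow₀ (by linarith) hT.ne'
        _ ≤ exp (η * m) ^ T := by
            rw [← mul_pow]
            gcongr
            refine le_trans ?_ hm
            nlinarith [exp_pos (2 * κ), mul_le_mul_of_nonneg_right hm1 (exp_pos (2 * κ)).le,
              mul_le_mul_of_nonneg_left (mul_le_mul_of_nonneg_right hm1 (exp_pos (2 * κ)).le)
                (zero_le_one.trans hm1)]
        _ = _ := by rw [← exp_nat_mul]; congr 1; ring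
    have h3 : 2 * (m : ℝ) * loss m i T ≤ exp (m * T * (rateI α + 2 * η)) := by
      calc 2 * (m : ℝ) * loss m i T
          ≤ 2 * (m : ℝ) * (4 * (m + 1) * exp (2 * κ)) ^ T * exp (m * (T * (rateI α + η))) := by
            rw [mul_assoc (2 * (m : ℝ))]
            gcongr
        _ ≤ exp (η * m * T) * exp (m * (T * (rateI α + η))) := by gcongr
        _ = _ := by rw [← exp_add]; congr 1; ring
    have h4 : 0 ≤ 2 * (m : ℝ) * loss m i T :=
      mul_nonneg (by positivity) (zero_le_one.trans (one_le_loss m i hi T))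
    calc 4 * (m : ℝ) ^ 2 * loss m i T * loss m i T
        = (2 * (m : ℝ) * loss m i T) * (2 * (m : ℝ) * loss m i T) := by ring
      _ ≤ exp (m * T * (rateI α + 2 * η)) * exp (m * T * (rateI α + 2 * η)) :=
          mul_self_le_mul_self h4 h3
      _ = _ := by rw [← exp_add]; congr 1; ring
  · rw [Nat.cast_choose_two]
    push_cast
    calc ∑ t ∈ range T, ((m : ℝ) ^ 2 + t * m * i t)
        ≤ ∑ t ∈ range T, (2 * (m : ℝ) ^ 2 + m ^ 2 / 2 * (t * (1 - tanh (κ * (t / T))))) := by
          refine sum_le_sum fun t ht => ?_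
          have a := (abs_le.1 (hi2 t)).1
          have t1 : (t : ℝ) ≤ m := by exact_mod_cast (mem_range.1 ht).le.trans hmT
          have t0 : (0 : ℝ) ≤ t * m := by positivity
          nlinarith [mul_le_mul_of_nonneg_left a t0,
            mul_le_mul_of_nonneg_right t1 (zero_le_one.trans hm1)]
      _ = 2 * T * (m : ℝ) ^ 2 + m ^ 2 / 2 * ∑ t ∈ range T, (t * (1 - tanh (κ * (t / T)))) := by
          rw [sum_add_distrib, sum_const, card_range, ← mul_sum, nsmul_eq_mul]
          ring
      _ ≤ _ := by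
          have a := mul_le_mul_of_nonneg_left hB (by positivity : (0 : ℝ) ≤ m ^ 2 / 2)
          have b : α * (T * m) ≤ T * m ^ 2 := by
            have : (0 : ℝ) ≤ T * m := by positivity
            nlinarith [mul_le_mul_of_nonneg_left hm1 this]
          nlinarith

lemma tendsto_log_nat : Tendsto (fun n : ℕ => log n) atTop atTop :=
  tendsto_log_atTop.comp tendsto_natCast_atTop_atTop

lemma lower {α c : ℝ} (h0 : 0 < α) (h1 : α < 1 / 2) (hc : c < 1 / (2 * rateI α)) :
    ∀ᶠ n : ℕ in atTop, c * log n ≤ F n α := by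
  have hI := rateI_pos h0 h1
  obtain ⟨η, hη, hJ⟩ : ∃ η : ℝ, 0 < η ∧ c < 1 / (2 * (rateI α + 2 * η)) := by
    have t : Tendsto (fun η : ℝ => 1 / (2 * (rateI α + 2 * η))) (𝓝[>] 0)
        (𝓝 (1 / (2 * (rateI α + 2 * 0)))) :=
      (ContinuousAt.tendsto (f := fun η : ℝ => 1 / (2 * (rateI α + 2 * η)))
        (by fun_prop (disch := positivity))).mono_left nhdsWithin_le_nhds
    rw [mul_zero, add_zero] at t
    exact (eventually_mem_nhdsWithin.and (t.eventually_const_lt hc)).exists
  obtain ⟨T, hT, hev⟩ := lt_F_exp h0 h1 hη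
  have hT' : (0 : ℝ) < T := by exact_mod_cast hT
  set J := rateI α + 2 * η with hJd
  have hJ0 : 0 < J := by positivity
  have t1 : Tendsto (fun n : ℕ => ⌊log n / (2 * T * J)⌋₊) atTop atTop :=
    tendsto_nat_floor_atTop.comp (tendsto_log_nat.atTop_div_const (by positivity))
  filter_upwards [t1.eventually hev, eventually_gt_atTop 0,
    tendsto_log_nat.eventually_ge_atTop (T / (1 / (2 * J) - c))] with n h hn hL
  have hn' : (0 : ℝ) < n := by exact_mod_cast hn
  have hl0 : 0 ≤ log n := log_natCast_nonneg n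
  have a := Nat.floor_le (a := log n / (2 * T * J)) (by positivity)
  have b := Nat.lt_floor_add_one (log n / (2 * T * J))
  rw [le_div_iff₀ (by positivity)] at a
  have h2 := h n (by
    rw [← le_log_iff_exp_le hn']
    linarith)
  have h3 : (T : ℝ) * ⌊log n / (2 * T * J)⌋₊ ≤ F n α := by exact_mod_cast h2.le
  rw [div_le_iff₀ (sub_pos.2 hJ)] at hL
  have e : T * (log n / (2 * T * J)) = log n * (1 / (2 * J)) := by field_simp
  nlinarith [mul_lt_mul_of_pos_left b hT']

end Pool.Agent.MP_dd175f_co
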