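import Pool.Agent.MP_dd175f_co.Lower

/-! The random colouring bound. -/

set_option autoImplicit false

namespace Pool.Agent.MP_dd175f_co

open Real Finset Filter Topology Nb34004ea

variable {n : ℕ}

lemma card_edges (H : Finset (Fin n)) :
    (H.sym2.filter fun e => ¬ e.IsDiag).card = H.card.choose 2 := by
  rw [← Sym2.card_image_offDiag]
  congr 1
  ext e
  induction e with
  | h a b =>
    simp only [mem_filter, mk_mem_sym2_iff, Sym2.mk_isDiag_iff, mem_image, mem_offDiag,
      Prod.exists]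
    constructor
    · rintro ⟨⟨ha, hb⟩, h⟩
      exact ⟨a, b, ⟨ha, hb, h⟩, rfl⟩
    · rintro ⟨x, y, ⟨hx, hy, h⟩, e⟩
      rcases Sym2.eq_iff.1 e with ⟨rfl, rfl⟩ | ⟨rfl, rfl⟩
      exacts [⟨⟨hx, hy⟩, h⟩, ⟨⟨hy, hx⟩, Ne.symm h⟩]

lemma sum_pow_count (H : Finset (Fin n)) (b : Bool) (z : ℝ) :
    ∑ c : Sym2 (Fin n) → Bool, z ^ colourEdgeCount c H b =
      2 ^ Fintype.card (Sym2 (Fin n)) * ((1 + z) / 2) ^ H.card.choose 2 := by
  have h1 : ∀ c : Sym2 (Fin n) → Bool, z ^ colourEdgeCount c H b =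
      ∏ e, if e ∈ H.sym2.filter (fun e => ¬ e.IsDiag) ∧ c e = b then z else 1 := fun c => by
    rw [prod_ite, prod_const_one, mul_one, prod_const]
    unfold colourEdgeCount
    congr 2
    ext e
    simp [and_assoc]
  simp only [h1]
  rw [← Fintype.piFinset_univ, ← prod_univ_sum (fun _ => (univ : Finset Bool))
    fun e x => if e ∈ H.sym2.filter (fun e => ¬ e.IsDiag) ∧ x = b then z else 1]
  have h2 : ∀ e : Sym2 (Fin n), (∑ x : Bool,
      if e ∈ H.sym2.filter (fun e => ¬ e.IsDiag) ∧ x = b then z else 1) =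
      2 * if e ∈ H.sym2.filter (fun e => ¬ e.IsDiag) then (1 + z) / 2 else 1 := fun e => by
    by_cases h : e ∈ H.sym2.filter (fun e => ¬ e.IsDiag) <;> cases b <;>
      simp only [h, Fintype.sum_bool] <;> simp <;> ring
  simp only [h2]
  rw [prod_mul_distrib, prod_const, card_univ, Fintype.prod_ite_mem, prod_const, card_edges]

lemma card_bad {α : ℝ} (h0 : 0 < α) (h1 : α < 1 / 2) (H : Finset (Fin n)) (b : Bool) :
    ((univ.filter fun c : Sym2 (Fin n) → Bool =>
      (colourEdgeCount c H b : ℝ) ≤ α * H.card.choose 2).card : ℝ) ≤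
      2 ^ Fintype.card (Sym2 (Fin n)) * exp (-(rateD α * H.card.choose 2)) := by
  have h2 : 0 < 1 - α := by linarith
  have hz : 0 < α / (1 - α) := by positivity
  have hz1 : log (α / (1 - α)) ≤ 0 := log_nonpos hz.le ((div_le_one h2).2 (by linarith))
  have h3 := card_nsmul_le_sum (univ.filter fun c : Sym2 (Fin n) → Bool =>
      (colourEdgeCount c H b : ℝ) ≤ α * H.card.choose 2)
    (fun c => (α / (1 - α)) ^ colourEdgeCount c H b)
    (exp (α * H.card.choose 2 * log (α / (1 - α)))) fun c hc => by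
      rw [← exp_log (pow_pos hz _), log_pow]
      exact exp_le_exp.2 (mul_le_mul_of_nonpos_right (mem_filter.1 hc).2 hz1)
  have h4 := h3.trans (sum_le_univ_sum_of_nonneg fun c => by positivity)
  rw [sum_pow_count, nsmul_eq_mul, ← le_div_iff₀ (exp_pos _), mul_div_assoc] at h4
  refine h4.trans (le_of_eq ?_)
  have e : (1 + α / (1 - α)) / 2 = exp (-(log 2 + log (1 - α))) := by
    rw [exp_neg, exp_add, exp_log two_pos, exp_log h2]
    field_simp
    ring
  rw [e, ← exp_nat_mul, ← exp_sub, log_div h0.ne' h2.ne']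
  congr 2
  unfold rateD
  ring

lemma F_le {α : ℝ} (h0 : 0 < α) (h1 : α < 1 / 2) (k : ℕ) (hk : 0 < k)
    (h : n * exp (-(rateD α * (k - 1) / 2)) ≤ 1 / 4) : F n α ≤ k := by
  have hD : 0 ≤ rateD α := (rateI_pos h0 h1).le.trans (rateI_le_D h0 (by linarith))
  refine Nat.sInf_le ?_
  by_contra hn
  simp only [Set.mem_ofPred_eq, IsBalancedAbove, not_exists, not_forall, not_lt] at hn
  set q := exp (-(rateD α * (k - 1) / 2)) with hq
  have hq0 : 0 < q := exp_pos _
  have h2 : (univ : Finset (Sym2 (Fin n) → Bool)) ⊆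
      (univ.filter fun H : Finset (Fin n) => k ≤ H.card).biUnion fun H =>
        (univ : Finset Bool).biUnion fun b => univ.filter fun c =>
          (colourEdgeCount c H b : ℝ) ≤ α * H.card.choose 2 := fun c _ => by
    obtain ⟨H, hH, b, hb⟩ := hn c
    simp only [mem_biUnion, mem_filter, mem_univ, true_and]
    exact ⟨H, hH, b, hb⟩
  have h3 := (card_le_card h2).trans (card_biUnion_le.trans (sum_le_sum fun H _ => card_biUnion_le))
  have h4 : (2 : ℝ) ^ Fintype.card (Sym2 (Fin n)) ≤
      ∑ H ∈ univ.filter (fun H : Finset (Fin n) => k ≤ H.card),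
        2 ^ Fintype.card (Sym2 (Fin n)) * (2 * q ^ H.card) := by
    rw [card_univ, Fintype.card_fun, Fintype.card_bool] at h3
    have h5 := (Nat.cast_le (α := ℝ)).2 h3
    push_cast at h5
    refine h5.trans (sum_le_sum fun H hH => (sum_le_sum fun b _ => card_bad h0 h1 H b).trans ?_)
    rw [sum_const, card_univ, Fintype.card_bool, nsmul_eq_mul, Nat.cast_ofNat, mul_left_comm,
      hq, ← exp_nat_mul, Nat.cast_choose_two]
    have h6 : (k : ℝ) ≤ H.card := by exact_mod_cast (mem_filter.1 hH).2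
    gcongr _ * (_ * exp ?_)
    nlinarith [mul_le_mul_of_nonneg_left h6 (mul_nonneg hD (Nat.cast_nonneg H.card))]
  rw [← mul_sum, le_mul_iff_one_le_right (by positivity), ← mul_sum] at h4
  have h5 : ∑ H : Finset (Fin n), q ^ H.card = (1 + q) ^ n := by
    have := prod_one_add (f := fun _ : Fin n => q) univ
    rw [prod_const, card_univ, Fintype.card_fin, powerset_univ] at this
    simp only [this, prod_const]
  have h6 : ∑ H ∈ univ.filter (fun H : Finset (Fin n) => k ≤ H.card), q ^ H.card ≤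
      ∑ H ∈ univ.erase (∅ : Finset (Fin n)), q ^ H.card :=
    sum_le_sum_of_subset_of_nonneg (fun H hH => mem_erase.2 ⟨by
      rintro rfl
      have := (mem_filter.1 hH).2
      simp at this
      omega, mem_univ _⟩) fun _ _ _ => by positivity
  rw [sum_erase_eq_sub (mem_univ _), h5, card_empty, pow_zero] at h6
  have h7 : (1 + q) ^ n ≤ exp (1 / 4) := by
    calc (1 + q) ^ n ≤ exp q ^ n := by
          gcongr
          linarith [add_one_le_exp q]
      _ ≤ _ := by rw [← exp_nat_mul]; exact exp_le_exp.2 h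
  have h8 := exp_bound_div_one_sub_of_interval (x := 1 / 4) (by norm_num) (by norm_num)
  linarith

lemma upper {α c : ℝ} (h0 : 0 < α) (h1 : α < 1 / 2) (hc : 2 / rateD α < c) :
    ∀ᶠ n : ℕ in atTop, (F n α : ℝ) ≤ c * log n := by
  have hD : 0 < rateD α := (rateI_pos h0 h1).trans_le (rateI_le_D h0 (by linarith))
  have hc0 : 0 < c := lt_trans (by positivity) hc
  rw [div_lt_iff₀ hD] at hc
  filter_upwards [eventually_gt_atTop 0, tendsto_log_nat.eventually_ge_atTop (1 / c),
    tendsto_log_nat.eventually_ge_atTop ((rateD α + 3) / (c * rateD α / 2 - 1))] with n hn h2 h3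
  have hn' : (0 : ℝ) < n := by exact_mod_cast hn
  rw [div_le_iff₀ hc0] at h2
  rw [div_le_iff₀ (by linarith)] at h3
  have a := Nat.floor_le (a := c * log n) (by linarith)
  have b := Nat.lt_floor_add_one (c * log n)
  refine le_trans (Nat.cast_le.2 (F_le h0 h1 ⌊c * log n⌋₊ (Nat.floor_pos.2 (by linarith)) ?_)) a
  rw [← exp_log hn', ← exp_add, exp_log hn']
  calc _ ≤ exp (-3) := exp_le_exp.2 (by nlinarith [mul_lt_mul_of_pos_left b hD])
    _ ≤ _ := by
      rw [exp_neg, inv_eq_one_div]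
      exact one_div_le_one_div_of_le (by norm_num) (by linarith [add_one_le_exp (3 : ℝ)])

end Pool.Agent.MP_dd175f_co
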